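import Mathlib

namespace Pool.Agent.Results.MP_303525_mp.No

open Set Real

/-- `l` is a Dirichlet eigenvalue of `-d²/dx² + V` on `[a,b]` (for continuous `V`): there is a
nonzero `C¹` function `u` on `[a,b]` with `-u'' + V u = l u` on `(a,b)` and `u a = u b = 0`. -/
def IsEig (V : ℝ → ℝ) (a b l : ℝ) : Prop :=
  ∃ u u' u'' : ℝ → ℝ, ContinuousOn u (Icc a b) ∧ ContinuousOn u' (Icc a b) ∧
    (∀ x ∈ Ioo a b, HasDerivAt u (u' x) x ∧ HasDerivAt u' (u'' x) x ∧
      -u'' x + V x * u x = l * u x) ∧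
    u a = 0 ∧ u b = 0 ∧ ∃ x ∈ Icc a b, u x ≠ 0

noncomputable def h (x : ℝ) : ℝ := (exp x + 9 / 11 * exp (-x)) / (exp x - 9 / 11 * exp (-x))

noncomputable def V (x : ℝ) : ℝ := 2 * (h x ^ 2 - 1)

lemma w_pos {x : ℝ} (hx : 0 ≤ x) : 0 < exp x - 9 / 11 * exp (-x) := by
  have := exp_le_exp.2 (show -x ≤ x by linarith)
  have := exp_pos (-x)
  linarith

lemma h_ge {x : ℝ} (hx : 0 ≤ x) : 1 ≤ h x := by
  rw [h, one_le_div (w_pos hx)]
  have := exp_pos (-x)
  linarith

lemma h_zero : h 0 = 10 := by norm_num [h]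

lemma h_der {x : ℝ} (hx : 0 ≤ x) : HasDerivAt h (1 - h x ^ 2) x := by
  have e1 := hasDerivAt_exp x
  have e2 : HasDerivAt (fun x => exp (-x)) (-exp (-x)) x := by
    simpa using (hasDerivAt_neg x).exp
  have := (e1.add (e2.const_mul (9 / 11))).div (e1.sub (e2.const_mul (9 / 11))) (w_pos hx).ne'
  refine this.congr_deriv ?_
  have := (w_pos hx).ne'
  simp only [h, Pi.add_apply, Pi.sub_apply]
  rw [div_pow, one_sub_div (pow_ne_zero 2 this)]
  congr 1
  ring

lemma h_cont : ContinuousOn h (Icc 0 30) := fun _ hx => (h_der hx.1).continuousAt.continuousWithinAt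

lemma h_30 : h 30 ≤ 1 + 1 / 10 ^ 6 := by
  have h1 : (7 : ℝ) ≤ exp 6 := by have := add_one_le_exp (6 : ℝ); linarith
  have h2 : (7 : ℝ) ^ 10 ≤ exp 30 * exp 30 := by
    rw [← exp_add, show (30 : ℝ) + 30 = (10 : ℕ) * 6 by norm_num, exp_nat_mul]
    gcongr
  have h3 : exp 30 * exp (-30) = 1 := by rw [← exp_add]; simp
  have h4 := exp_pos (30 : ℝ)
  have h5 : 7 ^ 10 * exp (-30) ≤ exp 30 := by
    have := mul_le_mul_of_nonneg_right h2 (exp_pos (-30)).le
    rwa [mul_assoc, h3, mul_one] at this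
  rw [h, div_le_iff₀ (w_pos (by norm_num))]
  have := exp_pos (-30 : ℝ)
  nlinarith

lemma const_of {F : ℝ → ℝ} (hc : ContinuousOn F (Icc 0 30))
    (hd : ∀ x ∈ Ioo (0 : ℝ) 30, HasDerivAt F 0 x) : ∀ x ∈ Icc (0 : ℝ) 30, F x = F 0 := by
  intro x hx
  rcases hx.1.lt_or_eq with h0 | h0
  · obtain ⟨c, -, hc⟩ := exists_hasDerivAt_eq_slope F (fun _ => 0) h0
      (hc.mono (Icc_subset_Icc_right hx.2)) (fun y hy => hd y ⟨hy.1, hy.2.trans_le hx.2⟩)
    rw [eq_comm, div_eq_zero_iff] at hc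
    rcases hc with hc | hc <;> linarith
  · rw [← h0]

lemma eig_pos {l : ℝ} (H : IsEig V 0 30 l) : 0 < l := by
  obtain ⟨u, u', u'', c1, c2, hd, h0, h1, x, hx, hu⟩ := H
  by_contra hl
  push Not at hl
  have hV : ∀ y ∈ Ioo (0 : ℝ) 30, 0 ≤ V y := fun y hy => by
    have := h_ge hy.1.le
    unfold V; nlinarith
  have hd2 : ∀ y ∈ Ioo (0 : ℝ) 30, HasDerivAt (fun y => u y * u' y)
      (u' y ^ 2 + (V y - l) * u y ^ 2) y := fun y hy => by
    refine ((hd y hy).1.mul (hd y hy).2.1).congr_deriv ?_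
    linear_combination (-u y) * (hd y hy).2.2
  have hm : MonotoneOn (fun y => u y * u' y) (Icc 0 30) := by
    refine monotoneOn_of_hasDerivWithinAt_nonneg (convex_Icc _ _) (c1.mul c2)
      (f' := fun y => u' y ^ 2 + (V y - l) * u y ^ 2) (fun y hy => ?_) (fun y hy => ?_)
    · rw [interior_Icc] at hy ⊢; exact (hd2 y hy).hasDerivWithinAt
    · rw [interior_Icc] at hy
      have := hV y hy
      have : 0 ≤ V y - l := by linarith
      positivity
  have hz : ∀ y ∈ Icc (0 : ℝ) 30, u y * u' y = 0 := fun y hy => by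
    have a := hm ⟨le_rfl, by norm_num⟩ hy hy.1
    have b := hm hy ⟨by norm_num, le_rfl⟩ hy.2
    simp only [h0, h1, zero_mul] at a b
    linarith
  have := const_of (F := fun y => u y * u y) (c1.mul c1) (fun y hy => by
    refine ((hd y hy).1.mul (hd y hy).1).congr_deriv ?_
    have := hz y (Ioo_subset_Icc_self hy)
    linarith) x hx
  simp only [h0, mul_zero, mul_self_eq_zero] at this
  exact hu this

def E (k : ℝ) : Prop := sin (k * 30) * (k ^ 2 + 10 * h 30) = k * (10 - h 30) * cos (k * 30)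

lemma hc (k t : ℝ) : HasDerivAt (fun t => cos (k * t)) (-sin (k * t) * k) t := by
  simpa using ((hasDerivAt_id t).const_mul k).cos

lemma hs (k t : ℝ) : HasDerivAt (fun t => sin (k * t)) (cos (k * t) * k) t := by
  simpa using ((hasDerivAt_id t).const_mul k).sin

lemma eig_E {k : ℝ} (hk : 0 < k) (H : IsEig V 0 30 (k ^ 2)) : E k := by
  obtain ⟨u, u', u'', c1, c2, hd, h0, h1, x, hx, hu⟩ := H
  obtain ⟨φ, hφ⟩ : ∃ φ : ℝ → ℝ, φ = fun y => u' y + h y * u y := ⟨_, rfl⟩
  obtain ⟨ψ, hψ⟩ : ∃ ψ : ℝ → ℝ, ψ = fun y => h y * φ y - (1 + k ^ 2) * u y := ⟨_, rfl⟩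
  have cφ : ContinuousOn φ (Icc 0 30) := by rw [hφ]; exact c2.add (h_cont.mul c1)
  have cψ : ContinuousOn ψ (Icc 0 30) := by
    rw [hψ]; exact (h_cont.mul cφ).sub (continuousOn_const.mul c1)
  have dφ : ∀ y ∈ Ioo (0 : ℝ) 30, HasDerivAt φ (ψ y) y := fun y hy => by
    rw [hψ, hφ]
    refine ((hd y hy).2.1.add ((h_der hy.1.le).mul (hd y hy).1)).congr_deriv ?_
    have := (hd y hy).2.2
    unfold V at this
    linear_combination -this
  have dψ : ∀ y ∈ Ioo (0 : ℝ) 30, HasDerivAt ψ (-k ^ 2 * φ y) y := fun y hy => by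
    have := ((h_der hy.1.le).mul (dφ y hy)).sub ((hd y hy).1.const_mul (1 + k ^ 2))
    rw [hψ]
    refine this.congr_deriv ?_
    rw [hψ, hφ]; ring
  have cc : ContinuousOn (fun t => cos (k * t)) (Icc 0 30) := by fun_prop
  have cs : ContinuousOn (fun t => sin (k * t)) (Icc 0 30) := by fun_prop
  have A := const_of (F := fun t => k * φ t * cos (k * t) - ψ t * sin (k * t))
    (((continuousOn_const.mul cφ).mul cc).sub (cψ.mul cs)) (fun y hy => by
      refine ((((dφ y hy).const_mul k).mul (hc k y)).sub ((dψ y hy).mul (hs k y))).congr_deriv ?_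
      ring)
  have B := const_of (F := fun t => k * φ t * sin (k * t) + ψ t * cos (k * t))
    (((continuousOn_const.mul cφ).mul cs).add (cψ.mul cc)) (fun y hy => by
      refine ((((dφ y hy).const_mul k).mul (hs k y)).add ((dψ y hy).mul (hc k y))).congr_deriv ?_
      ring)
  have p0 : ψ 0 = 10 * φ 0 := by rw [hψ]; simp [h0, h_zero]
  have p1 : ψ 30 = h 30 * φ 30 := by rw [hψ]; simp [h1]
  simp only [mul_zero, cos_zero, sin_zero, mul_one, sub_zero, zero_add, p0] at A B
  have n0 : φ 0 ≠ 0 := by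
    intro z
    have a := A x hx
    have b := B x hx
    have s := sin_sq_add_cos_sq (k * x)
    rw [z] at a b
    have e1 : k * φ x = 0 := by
      linear_combination cos (k * x) * a + sin (k * x) * b - k * φ x * s
    have e2 : ψ x = 0 := by
      linear_combination (-sin (k * x)) * a + cos (k * x) * b - ψ x * s
    rw [hψ] at e2
    simp only [(mul_eq_zero.1 e1).resolve_left hk.ne', mul_zero, zero_sub, neg_eq_zero] at e2
    exact hu ((mul_eq_zero.1 e2).resolve_left (by positivity))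
  have a := A 30 ⟨by norm_num, le_rfl⟩
  have b := B 30 ⟨by norm_num, le_rfl⟩
  rw [p1] at a b
  have n1 : φ 30 ≠ 0 := by
    intro z
    rw [z] at b
    exact n0 (by linarith)
  apply mul_left_cancel₀ n1
  linear_combination k * b - 10 * a

lemma E_eig {k : ℝ} (hk : 0 < k) (H : E k) : IsEig V 0 30 (k ^ 2) := by
  obtain ⟨φ, hφ⟩ : ∃ φ : ℝ → ℝ, φ = fun y => k * cos (k * y) + 10 * sin (k * y) := ⟨_, rfl⟩
  obtain ⟨ψ, hψ⟩ : ∃ ψ : ℝ → ℝ, ψ = fun y => -k ^ 2 * sin (k * y) + 10 * k * cos (k * y) :=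
    ⟨_, rfl⟩
  have dφ : ∀ y, HasDerivAt φ (ψ y) y := fun y => by
    rw [hψ, hφ]
    exact (((hc k y).const_mul k).add ((hs k y).const_mul 10)).congr_deriv (by ring)
  have dψ : ∀ y, HasDerivAt ψ (-k ^ 2 * φ y) y := fun y => by
    rw [hψ, hφ]
    exact (((hs k y).const_mul (-k ^ 2)).add ((hc k y).const_mul (10 * k))).congr_deriv (by ring)
  have d1 : ∀ y, 0 ≤ y → HasDerivAt (fun y => ψ y - h y * φ y)
      (-(1 + k ^ 2) * φ y - h y * (ψ y - h y * φ y)) y := fun y hy =>
    ((dψ y).sub ((h_der hy).mul (dφ y))).congr_deriv (by ring)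
  have d2 : ∀ y, 0 ≤ y → HasDerivAt (fun y => -(1 + k ^ 2) * φ y - h y * (ψ y - h y * φ y))
      ((V y - k ^ 2) * (ψ y - h y * φ y)) y := fun y hy =>
    (((dφ y).const_mul _).sub ((h_der hy).mul (d1 y hy))).congr_deriv (by unfold V; ring)
  have z0 : ψ 0 - h 0 * φ 0 = 0 := by rw [hψ, hφ, h_zero]; simp
  refine ⟨_, _, _, fun y hy => (d1 y hy.1).continuousAt.continuousWithinAt,
    fun y hy => (d2 y hy.1).continuousAt.continuousWithinAt,
    fun y hy => ⟨d1 y hy.1.le, d2 y hy.1.le, by ring⟩, z0, ?_, ?_⟩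
  · rw [hψ, hφ]
    unfold E at H
    linear_combination -H
  · by_contra hcon
    push Not at hcon
    have h1 : HasDerivWithinAt (fun y => ψ y - h y * φ y) 0 (Icc 0 30) 0 :=
      (hasDerivWithinAt_const 0 _ 0).congr hcon z0
    have := (uniqueDiffOn_Icc (show (0 : ℝ) < 30 by norm_num) 0 ⟨le_rfl, by norm_num⟩).eq_deriv _
      (d1 0 le_rfl).hasDerivWithinAt h1
    rw [z0, hφ] at this
    simp only [mul_zero, cos_zero, sin_zero, mul_one, add_zero, sub_zero] at this
    have : 0 < (1 + k ^ 2) * k := by positivity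
    linarith

noncomputable def G (k : ℝ) : ℝ := k * 30 + arctan (k / 10) - arctan (k / h 30)

lemma h30 : 1 ≤ h 30 := h_ge (by norm_num)

lemma E_iff (k : ℝ) : E k ↔ sin (G k) = 0 := by
  have s : ∀ x, sin (arctan x) = x * cos (arctan x) := fun x => by
    have := tan_arctan x
    rw [tan_eq_sin_div_cos, div_eq_iff (cos_arctan_pos x).ne'] at this
    exact this
  have hh : h 30 ≠ 0 := by have := h30; linarith
  have e : sin (G k) = cos (arctan (k / 10)) * cos (arctan (k / h 30)) / (10 * h 30) *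
      (sin (k * 30) * (k ^ 2 + 10 * h 30) - k * (10 - h 30) * cos (k * 30)) := by
    rw [G, sin_sub, sin_add, cos_add, s, s]
    field_simp
    ring
  have : cos (arctan (k / 10)) * cos (arctan (k / h 30)) / (10 * h 30) ≠ 0 :=
    div_ne_zero (mul_pos (cos_arctan_pos _) (cos_arctan_pos _)).ne' (by positivity)
  rw [e, mul_eq_zero, sub_eq_zero, E]
  simp [this]

lemma atan_int (x : ℝ) : arctan x = ∫ t in (0 : ℝ)..x, 1 / (1 + t ^ 2) := by
  rw [integral_one_div_one_add_sq]; simp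

lemma cont_inv : Continuous fun t : ℝ => 1 / (1 + t ^ 2) :=
  continuous_const.div (by fun_prop) fun t => by positivity

lemma atan_lo {x : ℝ} (hx : 0 ≤ x) : x - x ^ 3 / 3 ≤ arctan x := by
  have : ∫ t in (0 : ℝ)..x, (1 - t ^ 2) = x - x ^ 3 / 3 := by
    rw [intervalIntegral.integral_sub (by simp) (by simp)]; simp; norm_num
  rw [atan_int, ← this]
  refine intervalIntegral.integral_mono_on hx (Continuous.intervalIntegrable (by fun_prop) _ _)
    (cont_inv.intervalIntegrable _ _) fun t _ => ?_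
  rw [le_div_iff₀ (by positivity)]
  nlinarith [sq_nonneg (t ^ 2)]

lemma atan_hi {x : ℝ} (hx : 0 ≤ x) : arctan x ≤ x - x ^ 3 / 3 + x ^ 5 / 5 := by
  have : ∫ t in (0 : ℝ)..x, (1 - t ^ 2 + t ^ 4) = x - x ^ 3 / 3 + x ^ 5 / 5 := by
    rw [intervalIntegral.integral_add (Continuous.intervalIntegrable (by fun_prop) _ _) (by simp),
      intervalIntegral.integral_sub (by simp) (by simp)]; simp; norm_num
  rw [atan_int, ← this]
  refine intervalIntegral.integral_mono_on hx (cont_inv.intervalIntegrable _ _)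
    (Continuous.intervalIntegrable (by fun_prop) _ _) fun t _ => ?_
  rw [div_le_iff₀ (by positivity)]
  nlinarith [sq_nonneg (t ^ 3)]

lemma atan_lip {x y : ℝ} (hxy : x ≤ y) : arctan y - arctan x ≤ y - x := by
  rw [← integral_one_div_one_add_sq]
  have : ∫ t in x..y, (1 : ℝ) = y - x := by simp
  rw [← this]
  refine intervalIntegral.integral_mono_on hxy (cont_inv.intervalIntegrable _ _) (by simp)
    fun t _ => ?_
  rw [div_le_iff₀ (by positivity)]
  nlinarith [sq_nonneg t]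

lemma G_step {x y : ℝ} (hxy : x ≤ y) : 29 * (y - x) ≤ G y - G x := by
  have h1 := h30
  have a := arctan_mono (show x / 10 ≤ y / 10 by linarith)
  have b := atan_lip (show x / h 30 ≤ y / h 30 by gcongr)
  have c : y / h 30 - x / h 30 ≤ y - x := by
    rw [← sub_div]; exact div_le_self (by linarith) h1
  unfold G; linarith

lemma G_mono : StrictMono G := fun x y hxy => by have := G_step hxy.le; linarith

lemma G_zero : G 0 = 0 := by simp [G]

lemma G_surj (n : ℕ) : ∃ k, 0 ≤ k ∧ G k = n * π := by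
  have hc : Continuous G := by unfold G; fun_prop
  have h0 : (0 : ℝ) ≤ n * π := by positivity
  obtain ⟨k, hk, e⟩ := intermediate_value_Icc h0 hc.continuousOn (a := 0) (b := n * π)
    (show n * π ∈ Icc (G 0) (G (n * π)) from ⟨by rw [G_zero]; exact h0, by
      have := G_step h0; rw [G_zero] at this; linarith⟩)
  exact ⟨k, hk.1, e⟩

lemma G_lo {U : ℝ} (hU : 0 ≤ U) :
    U * 30 + (U / 10 - (U / 10) ^ 3 / 3) - (U - U ^ 3 / 3 + U ^ 5 / 5) ≤ G U := by
  have a := atan_lo (show 0 ≤ U / 10 by positivity)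
  have b := atan_hi hU
  have c := arctan_mono (div_le_self hU h30)
  unfold G; linarith

lemma G_hi {D : ℝ} (hD : 0 ≤ D) :
    G D ≤ D * 30 + D / 10 - (D * (1 - 1 / 10 ^ 6) - (D * (1 - 1 / 10 ^ 6)) ^ 3 / 3) := by
  have a := atan_lip (show 0 ≤ D / 10 by positivity)
  have b := atan_lo (show 0 ≤ D * (1 - 1 / 10 ^ 6) by positivity)
  have h1 := h30
  have h2 := h_30
  have c := arctan_mono (show D * (1 - 1 / 10 ^ 6) ≤ D / h 30 by
    rw [le_div_iff₀ (by linarith), mul_assoc]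
    exact mul_le_of_le_one_right hD (by nlinarith))
  rw [arctan_zero] at a
  unfold G; linarith

theorem result : ∃ (a b : ℝ) (V : ℝ → ℝ) (lam : ℕ → ℝ) (i : ℕ), a < b ∧
    ContinuousOn V (Icc a b) ∧ ConvexOn ℝ (Icc a b) V ∧ (∀ x ∈ Icc a b, 0 ≤ V x) ∧
    StrictMonoOn lam (Ici 1) ∧ lam '' Ici 1 = {l | IsEig V a b l} ∧ 1 ≤ i ∧
    lam i / (i : ℝ) ^ 2 + lam (i + 3) / ((i : ℝ) + 3) ^ 2 <
      lam (i + 1) / ((i : ℝ) + 1) ^ 2 + lam (i + 2) / ((i : ℝ) + 2) ^ 2 := by
  choose k k0 hk using G_surj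
  have cV : ContinuousOn V (Icc 0 30) :=
    continuousOn_const.mul ((h_cont.pow 2).sub continuousOn_const)
  have kp : ∀ n, 1 ≤ n → 0 < k n := fun n hn => G_mono.lt_iff_lt.1 (by
    rw [G_zero, hk]; positivity)
  refine ⟨0, 30, V, fun n => k n ^ 2, 1, by norm_num, cV, ?_, fun x hx => ?_, ?_, ?_, le_rfl, ?_⟩
  · refine convexOn_of_hasDerivWithinAt2_nonneg (convex_Icc _ _) cV
      (f' := fun x => 4 * (h x * (1 - h x ^ 2)))
      (f'' := fun x => 4 * ((h x ^ 2 - 1) * (3 * h x ^ 2 - 1))) ?_ ?_ ?_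
    all_goals
      intro x hx
      rw [interior_Icc] at hx
      have d := h_der hx.1.le
    · exact ((((d.pow 2).sub_const 1).const_mul 2).congr_deriv (by simp; ring)).hasDerivWithinAt
    · exact (((d.mul ((d.pow 2).const_sub 1)).const_mul 4).congr_deriv
        (by simp; ring)).hasDerivWithinAt
    · have := h_ge hx.1.le
      have a : 0 ≤ h x ^ 2 - 1 := by nlinarith
      have b : 0 ≤ 3 * h x ^ 2 - 1 := by nlinarith
      positivity
  · have := h_ge hx.1
    unfold V; nlinarith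
  · intro m _ n _ hmn
    have : k m < k n := G_mono.lt_iff_lt.1 (by
      rw [hk, hk]; exact mul_lt_mul_of_pos_right (by exact_mod_cast hmn) pi_pos)
    exact pow_lt_pow_left₀ this (k0 m) two_ne_zero
  · ext l
    constructor
    · rintro ⟨n, hn, rfl⟩
      exact E_eig (kp n hn) ((E_iff _).2 (by rw [hk, sin_nat_mul_pi]))
    · intro hl
      have hl0 := eig_pos hl
      have hs := sqrt_pos.2 hl0
      rw [← sq_sqrt hl0.le] at hl ⊢
      obtain ⟨n, hn⟩ := sin_eq_zero_iff.1 ((E_iff _).1 (eig_E hs hl))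
      have : (0 : ℝ) < n := (mul_pos_iff_of_pos_right pi_pos).1 (by
        rw [hn, ← G_zero]; exact G_mono hs)
      have hn0 : 0 < n := by exact_mod_cast this
      lift n to ℕ using hn0.le
      refine ⟨n, (by exact_mod_cast hn0 : 0 < n), ?_⟩
      simp only
      rw [G_mono.injective ((hk n).trans (by exact_mod_cast hn))]
  · have p1 := pi_gt_d6
    have p2 := pi_lt_d6
    have u1 : k 1 ≤ 0.107945 := G_mono.le_iff_le.1 (by
      rw [hk]; refine le_trans ?_ (G_lo (by norm_num)); norm_num; linarith)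
    have u4 : k 4 ≤ 0.431021 := G_mono.le_iff_le.1 (by
      rw [hk]; refine le_trans ?_ (G_lo (by norm_num)); norm_num; linarith)
    have u2 : 0.215801 ≤ k 2 := G_mono.le_iff_le.1 (by
      rw [hk]; refine le_trans (G_hi (by norm_num)) ?_; norm_num; linarith)
    have u3 : 0.323487 ≤ k 3 := G_mono.le_iff_le.1 (by
      rw [hk]; refine le_trans (G_hi (by norm_num)) ?_; norm_num; linarith)
    have v1 := pow_le_pow_left₀ (k0 1) u1 2
    have v4 := pow_le_pow_left₀ (k0 4) u4 2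
    have v2 := pow_le_pow_left₀ (by norm_num) u2 2
    have v3 := pow_le_pow_left₀ (by norm_num) u3 2
    norm_num at v1 v2 v3 v4 ⊢
    linarith

end Pool.Agent.Results.MP_303525_mp.No
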